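import Pool.Agent.Q292.NbrSumLower

/-!
# Open neighborhood sum parameters of all 2-regular graphs

`NS`, `NSm`, `NSsp` are the three parameters `NS(G)`, `NS⁻(G)` and `NS^sp(G)` of a finite graph, and
`cycles t` is the disjoint union of the cycles of lengths `t 0, …, t (k - 1)`.
-/

set_option autoImplicit false

namespace Pool.Agent.Results.MP_af65a2_co.AllTwoRegularGraphs

open Finset Pool.Agent.Q292.NS

/-- `f(N(v))`: the sum of the labels of the neighbors of `v` -/
noncomputable def nbrSum {V : Type} [Fintype V] (G : SimpleGraph V) (f : V → ℕ) (v : V) : ℕ :=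
  open Classical in ∑ u ∈ univ.filter (fun u => G.Adj v u), f u

/-- `f` is a bijection from the vertex set onto `{1, …, n}` -/
def IsLabeling {V : Type} [Fintype V] (f : V → ℕ) : Prop :=
  Set.BijOn f Set.univ (Set.Icc 1 (Fintype.card V))

/-- `NS(f)`, the largest neighborhood sum -/
noncomputable def maxSum {V : Type} [Fintype V] (G : SimpleGraph V) (f : V → ℕ) : ℕ :=
  sSup (Set.range (nbrSum G f))

/-- `NS⁻(f)`, the least neighborhood sum -/
noncomputable def minSum {V : Type} [Fintype V] (G : SimpleGraph V) (f : V → ℕ) : ℕ :=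
  sInf (Set.range (nbrSum G f))

/-- `NS(G)` -/
noncomputable def NS {V : Type} [Fintype V] (G : SimpleGraph V) : ℕ :=
  sInf {m | ∃ f : V → ℕ, IsLabeling f ∧ m = maxSum G f}

/-- `NS⁻(G)` -/
noncomputable def NSm {V : Type} [Fintype V] (G : SimpleGraph V) : ℕ :=
  sSup {m | ∃ f : V → ℕ, IsLabeling f ∧ m = minSum G f}

/-- `NS^sp(G)` -/
noncomputable def NSsp {V : Type} [Fintype V] (G : SimpleGraph V) : ℕ :=
  sInf {m | ∃ f : V → ℕ, IsLabeling f ∧ m = maxSum G f - minSum G f}

/-- the disjoint union of the cycles of lengths `t i` -/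
def cycles {k : ℕ} (t : Fin k → ℕ) : SimpleGraph (Σ i : Fin k, Fin (t i)) :=
  SimpleGraph.fromRel fun u v => u.1 = v.1 ∧ (v.2 : ℕ) = ((u.2 : ℕ) + 1) % t u.1

/-- `max(1, #{i : t i odd} + 2 #{i : t i ≡ 2 mod 4})` -/
def excess {k : ℕ} (t : Fin k → ℕ) : ℕ :=
  max 1 ((univ.filter fun i => t i % 2 = 1).card + 2 * (univ.filter fun i => t i % 4 = 2).card)

section Transfer

variable {k : ℕ} (t : Fin k → ℕ)

/-- the lengths of the cycles of the distance-two graph -/
def len (j : Fin k × Fin 2) : ℕ :=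
  if t j.1 % 2 = 0 then t j.1 / 2 else if j.2 = 0 then t j.1 else 0

/-- coordinates along the cycles of the distance-two graph -/
def E0 (i : Fin k) (x : ℕ) : (Fin k × Fin 2) × ℕ :=
  if t i % 2 = 0 then ((i, if x % 2 = 0 then 0 else 1), x / 2)
  else ((i, 0), if x % 2 = 0 then x / 2 else (x + t i) / 2)

/-- coordinates along the cycles of the distance-two graph -/
def E (v : Σ i : Fin k, Fin (t i)) : (Fin k × Fin 2) × ℕ := E0 t v.1 v.2

/-- rotation by `a` -/
def sh (a : ℕ) (v : Σ i : Fin k, Fin (t i)) : Σ i : Fin k, Fin (t i) :=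
  ⟨v.1, ⟨((v.2 : ℕ) + a) % t v.1, Nat.mod_lt _ (by have := v.2.isLt; omega)⟩⟩

variable {t}

lemma mod_cases {x a m : ℕ} (hx : x < m) (ha : a < m) :
    (x + a < m ∧ (x + a) % m = x + a) ∨ (m ≤ x + a ∧ (x + a) % m = x + a - m) := by
  rcases Nat.lt_or_ge (x + a) m with h | h
  · exact Or.inl ⟨h, Nat.mod_eq_of_lt h⟩
  · refine Or.inr ⟨h, ?_⟩
    rw [Nat.mod_eq_sub_mod h, Nat.mod_eq_of_lt (by omega)]

lemma E_mem (v : Σ i : Fin k, Fin (t i)) : E t v ∈ W (len t) := by
  obtain ⟨i, x, hx⟩ := v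
  rw [mem_W]
  unfold E E0 len
  simp only
  by_cases h : t i % 2 = 0
  · simp only [h, if_true]
    omega
  · simp only [h, if_false, if_true]
    split_ifs <;> omega

lemma E_inj : Function.Injective (E t) := by
  rintro ⟨i, x, hx⟩ ⟨i', x', hx'⟩ h
  unfold E E0 at h
  simp only at h
  have hi : i = i' := by
    split_ifs at h <;> simp only [Prod.mk.injEq] at h <;> exact h.1.1
  subst hi
  have hxx : x = x' := by
    by_cases h0 : t i % 2 = 0
    · simp only [h0, if_true, Prod.mk.injEq, true_and] at h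
      obtain ⟨h1, h2⟩ := h
      by_cases a : x % 2 = 0 <;> by_cases b : x' % 2 = 0 <;>
        simp only [a, b, if_true, if_false] at h1
      · omega
      · exact absurd h1 (by decide)
      · exact absurd h1 (by decide)
      · omega
    · simp only [h0, if_false, Prod.mk.injEq, true_and] at h
      split_ifs at h <;> omega
  subst hxx
  rfl

lemma len_add (i : Fin k) : len t (i, 0) + len t (i, 1) = t i := by
  unfold len
  simp only
  by_cases h : t i % 2 = 0
  · simp only [h, if_true]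
    omega
  · simp [h]

lemma card_len : (W (len t)).card = ∑ i, t i := by
  rw [card_W, Fintype.sum_prod_type]
  refine sum_congr rfl fun i _ => ?_
  rw [Fin.sum_univ_two]
  exact len_add i

lemma card_V : Fintype.card (Σ i : Fin k, Fin (t i)) = ∑ i, t i := by
  simp

lemma E_surj {p : (Fin k × Fin 2) × ℕ} (hp : p ∈ W (len t)) : ∃ v, E t v = p := by
  classical
  have h : univ.image (E t) = W (len t) := by
    refine eq_of_subset_of_card_le (fun q hq => ?_) ?_
    · rw [mem_image] at hq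
      obtain ⟨v, -, rfl⟩ := hq
      exact E_mem v
    · rw [card_image_of_injective _ E_inj, card_univ, card_V, card_len]
  rw [← h, mem_image] at hp
  obtain ⟨v, -, hv⟩ := hp
  exact ⟨v, hv⟩

lemma E_sh (ht : ∀ i, 3 ≤ t i) (v : Σ i : Fin k, Fin (t i)) :
    E t (sh t 2 v) = nxt (len t) (E t v) := by
  obtain ⟨i, x, hx⟩ := v
  have h3 := ht i
  show E0 t i ((x + 2) % t i) = nxt (len t) (E0 t i x)
  unfold E0 nxt len
  by_cases h : t i % 2 = 0
  · simp only [h, if_true, Prod.mk.injEq, true_and]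
    rcases mod_cases hx (show 2 < t i by omega) with ⟨h1, h2⟩ | ⟨h1, h2⟩
    · rw [h2]
      refine ⟨?_, ?_⟩
      · have : (x + 2) % 2 = x % 2 := by omega
        rw [this]
      · rw [if_neg (by omega)]
        omega
    · rw [h2]
      refine ⟨?_, ?_⟩
      · have : (x + 2 - t i) % 2 = x % 2 := by omega
        rw [this]
      · rw [if_pos (by omega)]
        omega
  · simp only [h, if_false, if_true, Prod.mk.injEq, true_and]
    rcases mod_cases hx (show 2 < t i by omega) with ⟨h1, h2⟩ | ⟨h1, h2⟩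
    · rw [h2]
      split_ifs <;> omega
    · rw [h2]
      split_ifs <;> omega

lemma len_ne (ht : ∀ i, 3 ≤ t i) (j : Fin k × Fin 2) : len t j ≠ 1 := by
  have := ht j.1
  unfold len
  split_ifs <;> omega

lemma card_odd : (univ.filter fun j => len t j % 2 = 1).card =
    (univ.filter fun i => t i % 2 = 1).card + 2 * (univ.filter fun i => t i % 4 = 2).card := by
  rw [card_filter, card_filter, card_filter, Fintype.sum_prod_type, mul_sum, ← sum_add_distrib]
  refine sum_congr rfl fun i _ => ?_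
  rw [Fin.sum_univ_two]
  have h0 : len t (i, 0) = if t i % 2 = 0 then t i / 2 else t i := by simp [len]
  have h1 : len t (i, 1) = if t i % 2 = 0 then t i / 2 else 0 := by simp [len]
  rw [h0, h1]
  rcases (by omega : t i % 4 = 0 ∨ t i % 4 = 1 ∨ t i % 4 = 2 ∨ t i % 4 = 3) with h | h | h | h
  · have a : t i % 2 = 0 := by omega
    have b : t i / 2 % 2 = 0 := by omega
    simp [a, b, h]
  · have a : t i % 2 = 1 := by omega
    simp [a, h]
  · have a : t i % 2 = 0 := by omega
    have b : t i / 2 % 2 = 1 := by omega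
    simp [a, b, h]
  · have a : t i % 2 = 1 := by omega
    simp [a, h]

lemma sh_surj (ht : ∀ i, 3 ≤ t i) (v : Σ i : Fin k, Fin (t i)) : ∃ u, sh t 1 u = v := by
  obtain ⟨i, x, hx⟩ := v
  have h3 := ht i
  refine ⟨⟨i, ⟨if x = 0 then t i - 1 else x - 1, by split_ifs <;> omega⟩⟩, ?_⟩
  unfold sh
  simp only [Sigma.mk.injEq, heq_eq_eq, true_and, Fin.mk.injEq]
  split_ifs with h
  · rw [Nat.sub_add_cancel (by omega), Nat.mod_self, h]
  · rw [Nat.sub_add_cancel (by omega), Nat.mod_eq_of_lt hx]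

lemma adj_iff (ht : ∀ i, 3 ≤ t i) (u w : Σ i : Fin k, Fin (t i)) :
    (cycles t).Adj (sh t 1 u) w ↔ w = u ∨ w = sh t 2 u := by
  obtain ⟨i, x, hx⟩ := u
  obtain ⟨i', y, hy⟩ := w
  have h3 := ht i
  unfold cycles sh
  rw [SimpleGraph.fromRel_adj]
  simp only
  by_cases hi : i = i'
  · subst hi
    simp only [true_and, Sigma.mk.injEq, heq_eq_eq, Fin.mk.injEq, ne_eq]
    have a := mod_cases hx (show 1 < t i by omega)
    have b := mod_cases hx (show 2 < t i by omega)
    have c := mod_cases hy (show 1 < t i by omega)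
    have d := mod_cases (show (x + 1) % t i < t i by omega) (show 1 < t i by omega)
    omega
  · have hi' : i' ≠ i := fun h => hi h.symm
    simp [hi, hi']

lemma nbrSum_sh (ht : ∀ i, 3 ≤ t i) (f : (Σ i : Fin k, Fin (t i)) → ℕ)
    (u : Σ i : Fin k, Fin (t i)) : nbrSum (cycles t) f (sh t 1 u) = f u + f (sh t 2 u) := by
  classical
  unfold nbrSum
  have hne : u ≠ sh t 2 u := by
    intro h
    obtain ⟨i, x, hx⟩ := u
    have h3 := ht i
    unfold sh at h
    simp only [Sigma.mk.injEq, heq_eq_eq, true_and, Fin.mk.injEq] at h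
    rcases mod_cases hx (show 2 < t i by omega) with ⟨b1, b2⟩ | ⟨b1, b2⟩ <;> omega
  rw [← sum_pair hne]
  refine sum_congr ?_ (fun _ _ => rfl)
  ext w
  simp only [mem_filter, mem_univ, true_and, mem_insert, mem_singleton]
  exact adj_iff ht u w

end Transfer

section Bounds

variable {k : ℕ} {t : Fin k → ℕ}

lemma le_sum (ht : ∀ i, 3 ≤ t i) (h4 : ∃ i, t i ≠ 4) (f : (Σ i : Fin k, Fin (t i)) → ℕ)
    (hf : IsLabeling f) (S : ℕ) (hS : ∀ v, nbrSum (cycles t) f v ≤ S) :
    (∑ i, t i) + 1 + excess t ≤ S := by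
  classical
  set g : (Fin k × Fin 2) × ℕ → ℕ := Function.extend (E t) f (fun _ => 0) with hg
  have hgE : ∀ v, g (E t v) = f v := fun v => E_inj.extend_apply f _ v
  have hcard : (W (len t)).card = Fintype.card (Σ i : Fin k, Fin (t i)) := by
    rw [card_len, card_V]
  have h1 : ∀ p ∈ W (len t), 1 ≤ g p ∧ g p ≤ (W (len t)).card := by
    intro p hp
    obtain ⟨v, rfl⟩ := E_surj hp
    rw [hgE, hcard]
    exact hf.mapsTo (Set.mem_univ v)
  have h2 : ∀ p ∈ W (len t), ∀ q ∈ W (len t), g p = g q → p = q := by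
    intro p hp q hq h
    obtain ⟨v, rfl⟩ := E_surj hp
    obtain ⟨w, rfl⟩ := E_surj hq
    rw [hgE, hgE] at h
    rw [hf.injOn (Set.mem_univ v) (Set.mem_univ w) h]
  have h3 : ∀ p ∈ W (len t), g p + g (nxt (len t) p) ≤ S := by
    intro p hp
    obtain ⟨v, rfl⟩ := E_surj hp
    rw [← E_sh ht, hgE, hgE, ← nbrSum_sh ht]
    exact hS _
  obtain ⟨i, hi⟩ := h4
  have h3i := ht i
  have hmem : ((i, 0), 0) ∈ W (len t) := by
    rw [mem_W]
    unfold len
    simp only
    split_ifs <;> omega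
  have a := lower_odd (len_ne ht) ⟨_, hmem⟩ g h1 h2 S h3
  have b : (W (len t)).card + 2 ≤ S := by
    refine lower_one ⟨_, hmem, ?_⟩ g h1 h2 S h3
    have hl3 : 3 ≤ len t (i, 0) := by
      unfold len
      simp only
      split_ifs <;> omega
    have e1 : nxt (len t) ((i, 0), 0) = ((i, 0), 1) := by
      unfold nxt
      simp only
      rw [if_neg (by omega)]
    have e2 : nxt (len t) ((i, 0), 1) = ((i, 0), 2) := by
      unfold nxt
      simp only
      rw [if_neg (by omega)]
    rw [e1, e2]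
    simp
  rw [card_odd] at a
  rw [card_len] at a b
  unfold excess
  rcases le_total 1 ((univ.filter fun i => t i % 2 = 1).card +
    2 * (univ.filter fun i => t i % 4 = 2).card) with h | h
  · rw [max_eq_right h]
    exact a
  · rw [max_eq_left h]
    exact b

lemma exists_good (ht : ∀ i, 3 ≤ t i) : ∃ f : (Σ i : Fin k, Fin (t i)) → ℕ, IsLabeling f ∧
    ∀ v, (∑ i, t i) + 1 ≤ nbrSum (cycles t) f v + excess t ∧
      nbrSum (cycles t) f v ≤ (∑ i, t i) + 1 + excess t := by
  classical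
  obtain ⟨g, h1, h2, h3⟩ := exists_labeling (len t) (len_ne ht) (excess t) (le_max_left _ _)
    (by rw [card_odd]; exact le_max_right _ _)
  have hcard : (W (len t)).card = Fintype.card (Σ i : Fin k, Fin (t i)) := by
    rw [card_len, card_V]
  have hinj : Function.Injective fun v => g (E t v) := fun v w h =>
    E_inj (h2 _ (E_mem v) _ (E_mem w) h)
  refine ⟨fun v => g (E t v), ⟨fun v _ => ?_, fun v _ w _ h => hinj h, ?_⟩, fun v => ?_⟩
  · have := h1 _ (E_mem v)
    rwa [hcard] at this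
  · have himg : univ.image (fun v => g (E t v)) = Icc 1 (Fintype.card (Σ i : Fin k, Fin (t i))) := by
      refine eq_of_subset_of_card_le (fun m hm => ?_) ?_
      · rw [mem_image] at hm
        obtain ⟨v, -, rfl⟩ := hm
        have := h1 _ (E_mem v)
        rw [hcard] at this
        exact mem_Icc.2 this
      · rw [card_image_of_injective _ hinj, card_univ, Nat.card_Icc]
        omega
    intro m hm
    have hm' : m ∈ univ.image (fun v => g (E t v)) := by
      rw [himg]
      exact mem_Icc.2 hm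
    rw [mem_image] at hm'
    obtain ⟨v, -, hv⟩ := hm'
    exact ⟨v, Set.mem_univ v, hv⟩
  · obtain ⟨u, rfl⟩ := sh_surj ht v
    rw [nbrSum_sh ht, E_sh ht, ← card_len]
    exact h3 _ (E_mem u)

lemma sum_le (ht : ∀ i, 3 ≤ t i) (h4 : ∃ i, t i ≠ 4) (f : (Σ i : Fin k, Fin (t i)) → ℕ)
    (hf : IsLabeling f) (S : ℕ) (hS : ∀ v, S ≤ nbrSum (cycles t) f v) :
    S + excess t ≤ (∑ i, t i) + 1 := by
  classical
  have hrange : ∀ v, 1 ≤ f v ∧ f v ≤ ∑ i, t i := by
    intro v
    have := hf.mapsTo (Set.mem_univ v)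
    rw [card_V] at this
    exact this
  set f' : (Σ i : Fin k, Fin (t i)) → ℕ := fun v => (∑ i, t i) + 1 - f v with hf'
  have hf'1 : ∀ v, f' v = (∑ i, t i) + 1 - f v := fun v => rfl
  have hlab : IsLabeling f' := by
    refine ⟨fun v _ => ?_, fun v _ w _ h => ?_, fun m hm => ?_⟩
    · have := hrange v
      rw [Set.mem_Icc, card_V, hf'1]
      omega
    · have a := hrange v
      have b := hrange w
      rw [hf'1, hf'1] at h
      exact hf.injOn (Set.mem_univ v) (Set.mem_univ w) (by omega)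
    · rw [Set.mem_Icc, card_V] at hm
      obtain ⟨v, hv, h⟩ := hf.surjOn (show (∑ i, t i) + 1 - m ∈ Set.Icc 1 (Fintype.card
        (Σ i : Fin k, Fin (t i))) by rw [Set.mem_Icc, card_V]; omega)
      refine ⟨v, hv, ?_⟩
      rw [hf'1, h]
      omega
  have hsum : ∀ v, nbrSum (cycles t) f' v = 2 * ((∑ i, t i) + 1) - nbrSum (cycles t) f v ∧
      nbrSum (cycles t) f v ≤ 2 * (∑ i, t i) := by
    intro v
    obtain ⟨u, rfl⟩ := sh_surj ht v
    rw [nbrSum_sh ht, nbrSum_sh ht, hf'1, hf'1]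
    have a := hrange u
    have b := hrange (sh t 2 u)
    omega
  have h := le_sum ht h4 f' hlab (2 * ((∑ i, t i) + 1) - S) (fun v => by
    have a := hsum v
    have b := hS v
    omega)
  obtain ⟨i, -⟩ := h4
  have h3i := ht i
  have hS' := hS ⟨i, ⟨0, by omega⟩⟩
  have hs' := hsum ⟨i, ⟨0, by omega⟩⟩
  omega

end Bounds

/-- **All three parameters of all 2-regular graphs.** Let `G` be the disjoint union of cycles of
lengths `t i ≥ 3`, not all equal to `4` (for `kC_4` the values `n + 1`, `n + 1`, `0` are known), let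
`n` be the number of vertices and let `c` be the larger one of `1` and
`#{i : t i odd} + 2 #{i : t i ≡ 2 mod 4}`. Then `NS(G) = n + 1 + c`, `NS⁻(G) = n + 1 - c` and
`NS^sp(G) = 2 c`, and one labeling attains all three values. -/
theorem result (k : ℕ) (t : Fin k → ℕ) (ht : ∀ i, 3 ≤ t i) (h4 : ∃ i, t i ≠ 4) :
    NS (cycles t) = (∑ i, t i) + 1 + excess t ∧
    NSm (cycles t) = (∑ i, t i) + 1 - excess t ∧
    NSsp (cycles t) = 2 * excess t ∧
    ∃ f : (Σ i : Fin k, Fin (t i)) → ℕ, IsLabeling f ∧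
      maxSum (cycles t) f = (∑ i, t i) + 1 + excess t ∧
      minSum (cycles t) f = (∑ i, t i) + 1 - excess t := by
  classical
  obtain ⟨i₀, hi₀⟩ := id h4
  have h3i := ht i₀
  have hne : Nonempty (Σ i : Fin k, Fin (t i)) := ⟨⟨i₀, ⟨0, by omega⟩⟩⟩
  have hbdd : ∀ f : (Σ i : Fin k, Fin (t i)) → ℕ,
      BddAbove (Set.range (nbrSum (cycles t) f)) := fun f => (Set.finite_range _).bddAbove
  have hlemax : ∀ (f : (Σ i : Fin k, Fin (t i)) → ℕ) v,
      nbrSum (cycles t) f v ≤ maxSum (cycles t) f := fun f v =>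
    le_csSup (hbdd f) ⟨v, rfl⟩
  have hlemin : ∀ (f : (Σ i : Fin k, Fin (t i)) → ℕ) v,
      minSum (cycles t) f ≤ nbrSum (cycles t) f v := fun f v => Nat.sInf_le ⟨v, rfl⟩
  have hmax : ∀ f : (Σ i : Fin k, Fin (t i)) → ℕ, IsLabeling f →
      (∑ i, t i) + 1 + excess t ≤ maxSum (cycles t) f := fun f hf =>
    le_sum ht h4 f hf _ (hlemax f)
  have hmin : ∀ f : (Σ i : Fin k, Fin (t i)) → ℕ, IsLabeling f →
      minSum (cycles t) f + excess t ≤ (∑ i, t i) + 1 := fun f hf =>
    sum_le ht h4 f hf _ (hlemin f)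
  obtain ⟨f, hf, hgood⟩ := exists_good ht
  have hfmax : maxSum (cycles t) f = (∑ i, t i) + 1 + excess t := by
    refine le_antisymm (csSup_le (Set.range_nonempty _) ?_) (hmax f hf)
    rintro _ ⟨v, rfl⟩
    exact (hgood v).2
  have hfmin : minSum (cycles t) f = (∑ i, t i) + 1 - excess t := by
    have h1 := hmin f hf
    obtain ⟨v, hv⟩ := Nat.sInf_mem (Set.range_nonempty (nbrSum (cycles t) f))
    have h2 := (hgood v).1
    have h3 : minSum (cycles t) f = nbrSum (cycles t) f v := hv.symm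
    omega
  refine ⟨le_antisymm (Nat.sInf_le ⟨f, hf, hfmax.symm⟩)
    (le_csInf ⟨_, f, hf, rfl⟩ ?_), ?_, le_antisymm (Nat.sInf_le ⟨f, hf, ?_⟩)
    (le_csInf ⟨_, f, hf, rfl⟩ ?_), f, hf, hfmax, hfmin⟩
  · rintro _ ⟨g, hg, rfl⟩
    exact hmax g hg
  · refine le_antisymm (csSup_le ⟨_, f, hf, rfl⟩ ?_) (le_csSup ⟨(∑ i, t i) + 1, ?_⟩
      ⟨f, hf, hfmin.symm⟩)
    · rintro _ ⟨g, hg, rfl⟩
      have := hmin g hg
      omega
    · rintro _ ⟨g, hg, rfl⟩
      have := hmin g hg
      omega
  · have := hmin f hf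
    rw [hfmax, hfmin]
    omega
  · rintro _ ⟨g, hg, rfl⟩
    have a := hmax g hg
    have b := hmin g hg
    omega

end Pool.Agent.Results.MP_af65a2_co.AllTwoRegularGraphs
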